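import Mathlib

namespace Pool.Agent.H.MP_3ff21c_al

open FreeGroup hiding map_mul map_one map_inv

section fg
variable {B : Type} [DecidableEq B]

theorem red_app {l : List (B × Bool)} (hl : IsReduced l) : ∀ c : List (B × Bool),
    ∃ pre k, k ≤ c.length ∧ reduce (c ++ l) = pre ++ l.drop k
  | [] => ⟨[], 0, le_rfl, by simpa using hl.reduce_eq⟩
  | x :: c => by
    obtain ⟨pre, k, hk, e⟩ := red_app hl c
    rw [List.cons_append, reduce.cons, e]
    cases pre with
    | cons y pre =>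
      by_cases h : x.1 = y.1 ∧ x.2 = !y.2
      · exact ⟨pre, k, by simp; omega, by simp [h]⟩
      · exact ⟨x :: y :: pre, k, by simp; omega, by simp [h]⟩
    | nil =>
      rcases e' : l.drop k with _ | ⟨y, t⟩
      · exact ⟨[x], k, by simp; omega, by simp [e']⟩
      · by_cases h : x.1 = y.1 ∧ x.2 = !y.2
        · refine ⟨[], k + 1, by simp; omega, ?_⟩
          rw [← List.drop_drop, e']; simp [h]
        · exact ⟨[x], k, by simp; omega, by simp [h, e']⟩

def Ad (g v : FreeGroup B) : Prop := IsReduced (g.toWord ++ v.toWord)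

theorem ad_iff (g v : FreeGroup B) : Ad g v ↔
    ∀ x ∈ g.toWord.getLast?, ∀ y ∈ v.toWord.head?, x.1 = y.1 → x.2 = y.2 := by
  rw [Ad, FreeGroup.IsReduced, List.isChain_append]
  exact ⟨fun h => h.2.2, fun h => ⟨isReduced_toWord, isReduced_toWord, h⟩⟩

theorem Ad.word {g v : FreeGroup B} (h : Ad g v) : (g * v).toWord = g.toWord ++ v.toWord := by
  rw [toWord_mul, IsReduced.reduce_eq h]

theorem Ad.nm {g v : FreeGroup B} (h : Ad g v) : FreeGroup.norm (g * v) = FreeGroup.norm g + FreeGroup.norm v := by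
  simp [FreeGroup.norm, h.word]

theorem Ad.exit {g v c : FreeGroup B} (h : Ad g v) (h' : ¬ Ad (c * g) v) : FreeGroup.norm g ≤ FreeGroup.norm c := by
  by_contra hn
  obtain ⟨pre, k, hk, e⟩ := red_app (isReduced_toWord (x := g)) c.toWord
  apply h'
  rw [ad_iff] at h ⊢
  simp only [FreeGroup.norm] at hn
  rwa [toWord_mul, e, List.getLast?_append_of_ne_nil _ (by simp; omega), List.getLast?_drop,
    if_neg (by omega)]

theorem ex_ad (f : FreeGroup B) {l : ℕ} (h : l ≤ FreeGroup.norm f) :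
    ∃ v, FreeGroup.norm v = l ∧ Ad (f * v⁻¹) v := by
  have hr := isReduced_toWord (x := f)
  rw [← List.take_append_drop (FreeGroup.norm f - l) f.toWord] at hr
  have h2 := List.isChain_append.1 hr
  have e1 : (mk (f.toWord.drop (FreeGroup.norm f - l))).toWord = _ := IsReduced.reduce_eq h2.2.1
  have e2 : (mk (f.toWord.take (FreeGroup.norm f - l))).toWord = _ := IsReduced.reduce_eq h2.1
  refine ⟨mk (f.toWord.drop (FreeGroup.norm f - l)), ?_, ?_⟩
  · simp only [FreeGroup.norm] at h e1 ⊢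
    rw [e1]; simp; omega
  · rw [show f * (mk (f.toWord.drop (FreeGroup.norm f - l)))⁻¹ = mk (f.toWord.take (FreeGroup.norm f - l)) by
      rw [mul_inv_eq_iff_eq_mul, mul_mk, List.take_append_drop, mk_toWord], Ad, e1, e2]
    exact hr

theorem ad_uq {g v g' v' : FreeGroup B} (h : Ad g v) (h' : Ad g' v') (e : g * v = g' * v')
    (hn : FreeGroup.norm v = FreeGroup.norm v') : v = v' := by
  have := h.word.symm.trans ((congrArg toWord e).trans h'.word)
  exact toWord_injective (List.append_inj_right' this hn)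

end fg

section path
variable {H S : Type} [Group H] (ε : FreeGroup S →* H)

inductive Path (P : Set H) : H → FreeGroup S → H → Prop
  | nil {p} : p ∈ P → Path P p 1 p
  | cons {p γ q} (x : S × Bool) : p ∈ P → Path P (p * ε (mk [x])) γ q → Path P p (mk [x] * γ) q

variable {ε} {P : Set H}

theorem Path.left {p γ q} (h : Path ε P p γ q) : p ∈ P := by cases h <;> assumption

theorem Path.right {p γ q} (h : Path ε P p γ q) : q ∈ P := by induction h <;> assumption

theorem Path.trans {p γ q γ' r} (h : Path ε P p γ q) (h' : Path ε P q γ' r) :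
    Path ε P p (γ * γ') r := by
  induction h with
  | nil => rwa [one_mul]
  | cons x hp _ ih => rw [mul_assoc]; exact .cons x hp (ih h')

theorem Path.symm {p γ q} (h : Path ε P p γ q) : Path ε P q γ⁻¹ p := by
  induction h with
  | nil hp => exact .nil hp
  | @cons p γ q x hp h ih =>
    have e : (mk [x] : FreeGroup S)⁻¹ = mk [(x.1, !x.2)] := by simp [inv_mk, invRev]
    rw [mul_inv_rev]
    refine ih.trans ?_
    rw [e, ← mul_one (mk [(x.1, !x.2)])]
    refine .cons _ h.left ?_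
    rw [← e, map_inv, mul_inv_cancel_right]
    exact .nil hp

theorem Path.map {P' : Set H} (g : H) (hg : ∀ p ∈ P, g * p ∈ P') {p γ q} (h : Path ε P p γ q) :
    Path ε P' (g * p) γ (g * q) := by
  induction h with
  | nil hp => exact .nil (hg _ hp)
  | cons x hp _ ih => exact .cons x (hg _ hp) (by rwa [mul_assoc])

theorem Path.bdd (d : H → ℕ) {p γ q} (h : Path ε P p γ q) :
    ∃ n, ∀ m, n ≤ m → Path ε {x | x ∈ P ∧ d x ≤ m} p γ q := by
  induction h with
  | @nil p hp => exact ⟨d p, fun m hm => .nil ⟨hp, hm⟩⟩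
  | @cons p γ q x hp _ ih =>
    obtain ⟨n, hn⟩ := ih
    exact ⟨n + d p, fun m hm => .cons x ⟨hp, by omega⟩ (hn m (by omega))⟩

theorem fin_rel [Finite S] (hP : P.Finite) : ∃ R : Set (FreeGroup S), R.Finite ∧
    (∀ r ∈ R, ∃ p, Path ε P p r p) ∧ ∀ p γ, Path ε P p γ p → γ ∈ Subgroup.normalClosure R := by
  have : ∀ p q : H, ∃ w, (∃ γ, Path ε P p γ q) → Path ε P p w q := fun p q => by
    by_cases h : ∃ γ, Path ε P p γ q
    · exact h.imp fun _ h _ => h
    · exact ⟨1, fun h' => absurd h' h⟩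
  choose W hW using this
  let R : Set (FreeGroup S) := {r | ∃ p, Path ε P p r p} ∩
    ((fun p => W p p) '' P ∪ (fun t : H × H × S × Bool =>
      mk [t.2.2] * W (t.1 * ε (mk [t.2.2])) t.2.1 * (W t.1 t.2.1)⁻¹) '' (P ×ˢ P ×ˢ Set.univ))
  refine ⟨R, Set.Finite.inter_of_right ((hP.image _).union
    ((hP.prod (hP.prod Set.finite_univ)).image _)) _, fun r hr => hr.1, fun p γ h => ?_⟩
  have key : ∀ {q γ p}, Path ε P q γ p → γ * (W q p)⁻¹ ∈ Subgroup.normalClosure R := by
    intro q γ p h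
    induction h with
    | @nil p hp =>
      rw [one_mul, inv_mem_iff]
      exact Subgroup.subset_normalClosure ⟨⟨p, hW _ _ ⟨_, .nil hp⟩⟩, Or.inl ⟨p, hp, rfl⟩⟩
    | @cons q γ p x hq h ih =>
      have a := Subgroup.subset_normalClosure (s := R) ⟨⟨q, (Path.cons x hq (hW _ _ ⟨_, h⟩)).trans
        (hW _ _ ⟨_, .cons x hq h⟩).symm⟩, Or.inr ⟨(q, p, x), ⟨hq, h.right, trivial⟩, rfl⟩⟩
      have := mul_mem (Subgroup.normalClosure_normal.conj_mem _ ih (mk [x])) a
      convert this using 1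
      group
  have := mul_mem (key h) (inv_mem (key (.nil h.left)))
  simpa using this

end path

section main
variable {H S B : Type} [Group H] [DecidableEq B] [Finite B] [Finite S]

theorem geo (ε : FreeGroup S →* H) (ι : FreeGroup B →* H) (ρ : H → FreeGroup B)
    (hρ : ∀ g h, ρ (ι g * h) = ρ h * g⁻¹) (h1 : ρ 1 = 1)
    (hfin : ∀ n, {h | FreeGroup.norm (ρ h) ≤ n}.Finite) (K : ℕ)
    (hK : ∀ x h, FreeGroup.norm (ρ h * (ρ (h * ε (mk [x])))⁻¹) ≤ K) (M : Submonoid H)
    (hM : M = Submonoid.closure (Set.range fun s => ε (of s))) :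
    ∃ R : Set (FreeGroup S), R.Finite ∧ (∀ r ∈ R, ∃ p, Path ε M p r p) ∧
      ∀ γ, Path ε M 1 γ 1 → γ ∈ Subgroup.normalClosure R := by
  let C : FreeGroup B → Set H := fun v => {h | ι v⁻¹ * h ∈ M ∧ Ad (ρ h) v}
  have hv : ∀ v h, ρ (ι v⁻¹ * h) = ρ h * v := fun v h => by rw [hρ, inv_inv]
  have ex1 : ∀ v h x, Ad (ρ h) v → ¬ Ad (ρ (h * ε (mk [x]))) v → FreeGroup.norm (ρ h) ≤ K :=
    fun v h x a b => (a.exit (c := ρ (h * ε (mk [x])) * (ρ h)⁻¹) (by simpa using b)).trans (by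
      rw [← norm_inv_eq]; simpa using hK x h)
  have ex2 : ∀ v h x, Ad (ρ (h * ε (mk [x]))) v → ¬ Ad (ρ h) v →
      FreeGroup.norm (ρ (h * ε (mk [x]))) ≤ K := fun v h x a b =>
    (a.exit (c := ρ h * (ρ (h * ε (mk [x])))⁻¹) (by simpa using b)).trans (hK x h)
  have n1 : ∀ v h, v ≠ 1 → ι v⁻¹ * h = 1 → ¬ Ad (ρ h) v := fun v h a b c => by
    have := c.nm
    rw [← hv, b, h1, FreeGroup.norm_one] at this
    exact a (FreeGroup.norm_eq_zero.1 (by omega))
  have det : ∀ v v', v ≠ 1 → v.toWord.head? = v'.toWord.head? →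
      {h | FreeGroup.norm (ρ h) ≤ K ∧ ι v⁻¹ * h ∈ M} = {h | FreeGroup.norm (ρ h) ≤ K ∧ ι v'⁻¹ * h ∈ M} →
      C v ⊆ C v' := by
    intro v v' a b c h hh
    refine ⟨?_, by rw [ad_iff, ← b, ← ad_iff]; exact hh.2⟩
    have : ∀ m ∈ Submonoid.closure (Set.range fun s => ε (of s)), ∀ h, ι v⁻¹ * h = m →
        Ad (ρ h) v → ι v'⁻¹ * h ∈ M := by
      intro m hm
      induction hm using Submonoid.closure_induction_right with
      | one => exact fun h e f => absurd f (n1 v h a e)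
      | mul_right m hm _ hs ih =>
        obtain ⟨s, rfl⟩ := hs
        intro h e f
        obtain ⟨h, rfl⟩ : ∃ h', h = h' * ε (of s) := ⟨h * (ε (of s))⁻¹, by simp⟩
        have hs : ε (of s) ∈ M := hM ▸ Submonoid.subset_closure ⟨s, rfl⟩
        by_cases g : Ad (ρ h) v
        · rw [← mul_assoc]
          exact M.mul_mem (ih h (by rwa [← mul_assoc, mul_left_inj] at e) g) hs
        · exact ((Set.ext_iff.1 c _).1 ⟨ex2 v h (s, true) f g,
            e ▸ M.mul_mem (hM ▸ hm) hs⟩).2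
    exact this _ (hM ▸ hh.1) h rfl hh.2
  have fC : (C '' {v | v ≠ 1}).Finite := by
    have : ((fun v : FreeGroup B => (v.toWord.head?, {h | FreeGroup.norm (ρ h) ≤ K ∧ ι v⁻¹ * h ∈ M})) ''
        {v | v ≠ 1}).Finite := (Set.finite_univ.prod (hfin K).finite_subsets).subset (by
      rintro _ ⟨v, -, rfl⟩
      exact ⟨trivial, fun h hh => hh.1⟩)
    choose! w hw using fun t (ht : t ∈ (fun v : FreeGroup B => (v.toWord.head?,
      {h | FreeGroup.norm (ρ h) ≤ K ∧ ι v⁻¹ * h ∈ M})) '' {v | v ≠ 1}) => ht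
    refine (this.image (fun t => C (w t))).subset ?_
    rintro _ ⟨v, a, rfl⟩
    obtain ⟨b, c⟩ := hw _ ⟨v, a, rfl⟩
    exact ⟨_, ⟨v, a, rfl⟩, (det _ _ b (congrArg Prod.fst c) (congrArg Prod.snd c)).antisymm
      (det _ _ a (congrArg Prod.fst c).symm (congrArg Prod.snd c).symm)⟩
  obtain ⟨n, hn⟩ : ∃ n, ∀ v, v ≠ 1 → ∀ p q γ, FreeGroup.norm (ρ p) ≤ K → FreeGroup.norm (ρ q) ≤ K →
      Path ε (C v) p γ q → ∃ γ', Path ε {x | x ∈ C v ∧ FreeGroup.norm (ρ x) ≤ n} p γ' q := by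
    have : ∀ t : Set H × H × H, ∃ n, ∀ m, n ≤ m → ∀ γ, Path ε t.1 t.2.1 γ t.2.2 →
        ∃ γ', Path ε {x | x ∈ t.1 ∧ FreeGroup.norm (ρ x) ≤ m} t.2.1 γ' t.2.2 := fun t => by
      by_cases h : ∃ γ, Path ε t.1 t.2.1 γ t.2.2
      · obtain ⟨γ, h⟩ := h
        obtain ⟨n, hn⟩ := h.bdd (fun x => FreeGroup.norm (ρ x))
        exact ⟨n, fun m hm _ _ => ⟨γ, hn m hm⟩⟩
      · exact ⟨0, fun _ _ γ h' => absurd ⟨γ, h'⟩ h⟩
    choose N hN using this
    obtain ⟨n, hn⟩ := ((fC.prod ((hfin K).prod (hfin K))).image N).bddAbove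
    exact ⟨n, fun v a p q γ b c => hN (C v, p, q) n (hn ⟨(C v, p, q), ⟨⟨v, a, rfl⟩, b, c⟩, rfl⟩) γ⟩
  have : ∀ P : Set H, ∃ R : Set (FreeGroup S), P.Finite → R.Finite ∧
      (∀ r ∈ R, ∃ p, Path ε P p r p) ∧ ∀ p γ, Path ε P p γ p → γ ∈ Subgroup.normalClosure R :=
    fun P => by
      by_cases h : P.Finite
      · exact (fin_rel h).imp fun _ h _ => h
      · exact ⟨∅, fun h' => absurd h' h⟩
  choose RP hRP using this
  let r := n + K + 1
  let PP : Set (Set H) := {P | P ⊆ {h | FreeGroup.norm (ρ h) ≤ r} ∧ ∃ g, ∀ p ∈ P, g * p ∈ M}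
  have fPP : PP.Finite := (hfin r).finite_subsets.subset fun P h => h.1
  have fP : ∀ P ∈ PP, P.Finite := fun P h => (hfin r).subset h.1
  refine ⟨⋃ P ∈ PP, RP P, fPP.biUnion fun P h => (hRP P (fP P h)).1, fun γ hγ => ?_, ?_⟩
  · obtain ⟨P, hP, hγ⟩ := Set.mem_iUnion₂.1 hγ
    obtain ⟨p, hp⟩ := (hRP P (fP P hP)).2.1 γ hγ
    obtain ⟨g, hg⟩ := hP.2
    exact ⟨_, hp.map g hg⟩
  set N := Subgroup.normalClosure (⋃ P ∈ PP, RP P)
  have loc : ∀ P ∈ PP, ∀ p γ, Path ε P p γ p → γ ∈ N := fun P hP p γ h =>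
    Subgroup.normalClosure_mono (Set.subset_biUnion_of_mem (u := RP) hP)
      ((hRP P (fP P hP)).2.2 p γ h)
  have : ∀ l γ, Path ε {x | x ∈ M ∧ FreeGroup.norm (ρ x) ≤ l + r} 1 γ 1 → γ ∈ N := by
    intro l
    induction l with
    | zero => exact fun γ h => loc _ ⟨fun x hx => by simpa using hx.2, 1, fun p hp => by
        simpa using hp.1⟩ _ _ h
    | succ l ih =>
      let Gd : H → FreeGroup S → Prop := fun p γ => ∃ γ', γ * γ'⁻¹ ∈ N ∧
        Path ε {x | x ∈ M ∧ FreeGroup.norm (ρ x) ≤ l + r} p γ' 1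
      have gc : ∀ p x γ, p ∈ M → FreeGroup.norm (ρ p) ≤ l + r → Gd (p * ε (mk [x])) γ →
          Gd p (mk [x] * γ) := by
        rintro p x γ a b ⟨γ', c, d⟩
        exact ⟨_, by simpa [mul_assoc] using Subgroup.normalClosure_normal.conj_mem _ c (mk [x]),
          .cons x ⟨a, b⟩ d⟩
      let I2 : H → FreeGroup S → Prop := fun p γ => ∀ v h, FreeGroup.norm v = l + 1 → p = ι v⁻¹ * h →
        Ad (ρ h) v → ∃ e γ₁ γ₂, FreeGroup.norm (ρ e) ≤ K ∧
          Path ε {x | x ∈ C v ∧ FreeGroup.norm (ρ x) ≤ r} h γ₁ e ∧ Gd (ι v⁻¹ * e) γ₂ ∧ γ = γ₁ * γ₂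
      have v1 : ∀ v : FreeGroup B, FreeGroup.norm v = l + 1 → v ≠ 1 := fun v a e => by simp [e] at a
      have st : ∀ p γ, I2 p γ → ∀ v h, FreeGroup.norm v = l + 1 → p = ι v⁻¹ * h → Ad (ρ h) v →
          FreeGroup.norm (ρ h) ≤ K → Gd p γ := by
        rintro _ γ hI v h a rfl c d
        obtain ⟨e, γ₁, γ₂, k1, k2, ⟨γ', k3, k4⟩, rfl⟩ := hI v h a rfl c
        obtain ⟨δ, k5⟩ := hn v (v1 v a) h e γ₁ d k1 (by
          simpa using k2.map (P' := C v) 1 (fun p hp => by simpa using hp.1))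
        have k6 := loc _ ⟨fun x hx => hx.2, ι v⁻¹, fun p hp => hp.1.1⟩ _ _ (k2.trans (by
          simpa using k5.symm.map (P' := {x | x ∈ C v ∧ FreeGroup.norm (ρ x) ≤ r}) 1
            (fun p hp => ⟨by simpa using hp.1, by have := hp.2; simp only [one_mul, r]; omega⟩)))
        refine ⟨δ * γ', ?_, Path.trans (k5.map (ι v⁻¹) (fun p hp => And.intro hp.1.1 ?_)) k4⟩
        · simpa [mul_assoc] using mul_mem (Subgroup.normalClosure_normal.conj_mem _ k3 γ₁) k6
        · have := hp.2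
          rw [hv, hp.1.2.nm]; simp only [r]; omega
      have key : ∀ p γ q, Path ε {x | x ∈ M ∧ FreeGroup.norm (ρ x) ≤ l + 1 + r} p γ q → q = 1 →
          (FreeGroup.norm (ρ p) ≤ l → Gd p γ) ∧ I2 p γ := by
        intro p γ q h
        induction h with
        | nil hp =>
          rintro rfl
          exact ⟨fun _ => ⟨1, by simp, .nil ⟨M.one_mem, by simp [h1]⟩⟩,
            fun v h a b c => absurd c (n1 v h (v1 v a) b.symm)⟩
        | @cons p γ q x hp _ ih =>
          intro hq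
          obtain ⟨i1, i2⟩ := ih hq
          have G : (∀ v, FreeGroup.norm v = l + 1 → Ad (ρ (ι v * p * ε (mk [x]))) v →
              ¬ Ad (ρ (ι v * p)) v) → Gd (p * ε (mk [x])) γ := fun hh => by
            by_cases c : FreeGroup.norm (ρ (p * ε (mk [x]))) ≤ l
            · exact i1 c
            · obtain ⟨v, a, b⟩ := ex_ad (ρ (p * ε (mk [x]))) (l := l + 1) (by omega)
              rw [← hρ, ← mul_assoc] at b
              exact st _ _ i2 v _ a (by simp [mul_assoc]) b (ex2 v _ x b (hh v a b))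
          refine ⟨fun c => gc _ _ _ hp.1 (by omega) (G fun v a _ d => ?_), ?_⟩
          · have := d.nm
            rw [hρ, inv_mul_cancel_right] at this
            omega
          · rintro v h a rfl c
            have hn := hp.2
            rw [hv, c.nm] at hn
            by_cases d : Ad (ρ (h * ε (mk [x]))) v
            · obtain ⟨e, γ₁, γ₂, k1, k2, k3, rfl⟩ := i2 v _ a (mul_assoc _ _ _) d
              exact ⟨e, _, γ₂, k1, .cons x ⟨⟨hp.1, c⟩, by omega⟩ k2, k3, (mul_assoc _ _ _).symm⟩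
            · have k := ex1 v h x c d
              refine ⟨h, 1, _, k, .nil ⟨⟨hp.1, c⟩, by omega⟩, gc _ _ _ hp.1 (by
                rw [hv, c.nm]; simp only [r]; omega) (G fun v' a' b' c' => ?_),
                (one_mul _).symm⟩
              obtain rfl : v' = v := ad_uq c' c (by rw [hρ, hv]; simp) (a'.trans a.symm)
              exact d (by simpa [← mul_assoc] using b')
      intro γ h
      obtain ⟨γ', a, b⟩ := (key _ _ _ h rfl).1 (by simp [h1])
      simpa using mul_mem a (ih _ b)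
  intro γ h
  obtain ⟨m, hm⟩ := h.bdd (fun x => FreeGroup.norm (ρ x))
  exact this m γ (hm _ (by omega))

end main

end Pool.Agent.H.MP_3ff21c_al
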