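import Mathlib

namespace Pool.Agent.H.MP_3ff21c_al

/-- the group element represented by a word in letters and formal inverses -/
def ev {X H : Type} [Group H] (a : X → H) (w : List (X × Bool)) : H :=
  FreeGroup.lift a (FreeGroup.mk w)

end Pool.Agent.H.MP_3ff21c_al
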