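import Mathlib
import Pool.Agent.H.MP_3ff21c_al.A
import Pool.Agent.H.MP_3ff21c_al.Defs
import Pool.Agent.Lib.helper22.FGp

namespace Pool.Agent.H.MP_3ff21c_al

open FreeGroup hiding map_mul map_one map_inv

theorem fin_gen {B : Type} (h : Group.FG (FreeGroup B)) : Finite B := by
  classical
  obtain ⟨T, hT, hf⟩ := Group.fg_iff.1 h
  refine Set.finite_univ_iff.1 ((hf.biUnion (fun t _ => (t.toWord.map Prod.fst).finite_toSet)).subset
    fun b _ => by_contra fun hb => ?_)
  let χ : FreeGroup B →* ℤˣ := lift fun x => if x = b then -1 else 1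
  have : ∀ w : List (B × Bool), b ∉ w.map Prod.fst → χ (mk w) = 1 := fun w hw => by
    rw [lift_mk]
    refine List.prod_eq_one fun y hy => ?_
    obtain ⟨x, hx, rfl⟩ := List.mem_map.1 hy
    have : x.1 ≠ b := fun e => hw (List.mem_map.2 ⟨x, hx, e⟩)
    simp [this]
  have k : χ.ker = ⊤ := by
    rw [eq_top_iff, ← hT, Subgroup.closure_le]
    intro t ht
    rw [← mk_toWord (x := t)]
    exact this _ fun h => hb (Set.mem_biUnion ht h)
  have : of b ∈ χ.ker := k ▸ trivial
  simp [χ] at this

theorem vf {H : Type} [Group H] [Group.FG H] (F : Subgroup H) [F.FiniteIndex] [IsFreeGroup F] :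
    ∃ (B Q : Type) (_ : Finite B) (_ : Finite Q) (ι : FreeGroup B →* H) (ρ : H → FreeGroup B)
      (q : H → Q) (nx : Q → H → Q) (co : Q → H → FreeGroup B),
      (∀ g h, ρ (ι g * h) = ρ h * g⁻¹) ∧ ρ 1 = 1 ∧ (∀ h h', q h = q h' → ρ h = ρ h' → h = h') ∧
      ∀ h s, q (h * s) = nx (q h) s ∧ ρ (h * s) = co (q h) s * ρ h := by
  classical
  let e := IsFreeGroup.toFreeGroup F
  let E : H → FreeGroup (IsFreeGroup.Generators F) := fun h => if hh : h ∈ F then e ⟨h, hh⟩ else 1
  have hE : ∀ g : F, E g = e g := fun g => dif_pos g.2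
  have hm : ∀ g ∈ F, ∀ h ∈ F, E (g * h) = E g * E h := fun g hg h hh =>
    (hE (⟨g, hg⟩ * ⟨h, hh⟩)).trans (by rw [map_mul, ← hE, ← hE])
  let q : H → H ⧸ F := fun h => ↑h⁻¹
  have hq : ∀ h, (q h).out⁻¹ * h⁻¹ ∈ F := fun h => QuotientGroup.eq.1 (QuotientGroup.out_eq' _)
  let r : H → FreeGroup _ := fun h => E ((q h).out⁻¹ * h⁻¹)
  refine ⟨_, H ⧸ F, fin_gen (Group.fg_of_surjective (f := e.toMonoidHom) e.surjective),
    inferInstance, F.subtype.comp e.symm.toMonoidHom, fun h => (r 1)⁻¹ * r h, q,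
    fun c s => s⁻¹ • c, fun c s => (r 1)⁻¹ * E ((s⁻¹ • c).out⁻¹ * s⁻¹ * c.out) * r 1,
    fun g h => ?_, by simp, fun h h' a b => ?_, fun h s => ?_⟩
  · obtain ⟨g, rfl⟩ := e.surjective g
    have e1 : q (g * h) = q h := QuotientGroup.eq.2 (by simp)
    simp only [r, MonoidHom.comp_apply, MulEquiv.coe_toMonoidHom, MulEquiv.symm_apply_apply,
      Subgroup.coe_subtype, e1]
    rw [mul_inv_rev, ← mul_assoc _ h⁻¹, hm _ (hq h) _ (F.inv_mem g.2), mul_assoc, ← map_inv, ← hE]
    rfl
  · have := mul_left_cancel b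
    simp only [r] at this
    rw [hE ⟨_, hq h⟩, hE ⟨_, hq h'⟩, e.apply_eq_iff_eq, Subtype.mk.injEq, a] at this
    simpa using this
  · have e1 : q (h * s) = s⁻¹ • q h := by simp [q]
    refine ⟨e1, ?_⟩
    have := hq (h * s)
    simp only [r]
    rw [← e1, mul_assoc, mul_inv_cancel_left, mul_assoc, ← hm _ (by
      simpa [mul_assoc] using F.mul_mem this (F.inv_mem (hq h))) _ (hq h)]
    simp [mul_assoc]

section ev
variable {X H : Type} [Group H] (a : X → H)

theorem ev_nil : ev a [] = 1 := by simp [ev]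

theorem ev_app (u w) : ev a (u ++ w) = ev a u * ev a w := by rw [ev, ← mul_mk, map_mul]; rfl

theorem ev_inv (u) : ev a (invRev u) = (ev a u)⁻¹ := by rw [ev, ← inv_mk, map_inv]; rfl

theorem ev_flat {α : Type} (f : α → List (X × Bool)) (l : List α) :
    ev a (l.flatMap f) = (l.map fun y => ev a (f y)).prod := by
  induction l with
  | nil => exact ev_nil a
  | cons y l ih => rw [List.flatMap_cons, ev_app, ih]; simp

def sb {S : Type} (ψ : S → List (X × Bool)) (w : List (S × Bool)) : List (X × Bool) :=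
  w.flatMap fun x => cond x.2 (ψ x.1) (invRev (ψ x.1))

theorem ev_sb {S : Type} (ψ : S → List (X × Bool)) (w) :
    ev a (sb ψ w) = lift (fun i => ev a (ψ i)) (mk w) := by
  rw [sb, ev_flat, lift_mk]
  congr 1
  refine List.map_congr_left fun x _ => ?_
  cases x.2 <;> simp [ev_inv]

end ev

open Pool.Agent.Lib in
theorem wp {H : Type} [Group H] [Group.FG H] (F : Subgroup H) [F.FiniteIndex] [IsFreeGroup F]
    {n : ℕ} (a : Fin n → H) : PrimrecRel fun u w => ev a u = ev a w := by
  classical
  obtain ⟨B, Q, _, _, ι, ρ, q, nx, co, -, h1, h2, h3⟩ := vf F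
  let _ : Primcodable B := .ofEquiv _ (Finite.equivFin B)
  let _ : Primcodable Q := .ofEquiv _ (Finite.equivFin Q)
  let _ := FGp.pc (B := B)
  let st : Q × FreeGroup B → Fin n × Bool → Q × FreeGroup B := fun c x =>
    (nx c.1 (ev a [x]), co c.1 (ev a [x]) * c.2)
  have hs : ∀ w h, w.foldl st (q h, ρ h) = (q (h * ev a w), ρ (h * ev a w)) := by
    intro w
    induction w with
    | nil => simp [ev_nil]
    | cons x w ih =>
      intro h
      rw [List.foldl_cons, show x :: w = [x] ++ w from rfl, ev_app, ← mul_assoc, ← ih]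
      simp only [st, h3]
  have pr : Primrec fun w : List (Fin n × Bool) => w.foldl st (q 1, ρ 1) := by
    refine Primrec.list_foldl (h := fun _ p => st p.1 p.2) .id (.const _) ?_
    have k : Primrec fun p : (Q × FreeGroup B) × Fin n × Bool => (p.1.1, p.2) :=
      (Primrec.fst.comp .fst).pair .snd
    exact (((Primrec.dom_finite fun t : Q × Fin n × Bool => nx t.1 (ev a [t.2])).comp k).pair
      (FGp.pr_mul.comp ((Primrec.dom_finite fun t : Q × Fin n × Bool =>
        co t.1 (ev a [t.2])).comp k) (Primrec.snd.comp .fst))).comp .snd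
  refine (Primrec.eq.comp (pr.comp .fst) (pr.comp .snd)).of_eq fun p => ?_
  simp only [hs, one_mul, Prod.mk.injEq]
  exact ⟨fun h => h2 _ _ h.1 h.2, fun h => by simp [h]⟩

theorem fp {H G : Type} [Group H] [Group G] [Group.FG H] (F : Subgroup H) [F.FiniteIndex]
    [IsFreeGroup F] {S : Type} [Finite S] (s : S → H) (M : Submonoid H)
    (hM : M = Submonoid.closure (Set.range s)) : ∃ R : List (List (S × Bool)), ∀ φ : S → G,
      (∀ r ∈ R, lift φ (mk r) = 1) ↔ ∃ Φ : M →* G, ∀ i, ∃ h, Φ ⟨s i, h⟩ = φ i := by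
  classical
  obtain ⟨B, Q, _, _, ι, ρ, q, nx, co, h0, h1, h2, h3⟩ := vf F
  obtain ⟨K, hK⟩ := (Set.finite_range fun t : Q × S × Bool =>
    FreeGroup.norm (co t.1 (lift s (mk [t.2])))).bddAbove
  have hs : ∀ i, s i ∈ M := fun i => hM ▸ Submonoid.subset_closure ⟨i, rfl⟩
  obtain ⟨R, r1, r2, r3⟩ := geo (lift s) ι ρ h0 h1 (fun n => by
    refine Set.Finite.of_finite_image (f := fun h => (q h, (ρ h).toWord))
      ((Set.finite_univ.prod (List.finite_length_le _ n)).subset ?_) fun h _ h' _ e =>
        h2 _ _ (congrArg Prod.fst e) (toWord_injective (congrArg Prod.snd e))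
    rintro _ ⟨h, hh, rfl⟩
    exact ⟨trivial, hh⟩) K (fun x h => by
      rw [(h3 _ _).2, mul_inv_rev, mul_inv_cancel_left, norm_inv_eq]
      exact hK ⟨(_, x), rfl⟩) M (by simpa using hM)
  refine ⟨r1.toFinset.toList.map toWord, fun φ => ⟨fun h => ?_, ?_⟩⟩
  · have k : ∀ γ, Path (lift s) M 1 γ 1 → lift φ γ = 1 := fun γ hγ =>
      Subgroup.normalClosure_le_normal (N := (lift φ).ker) (fun r hr => by
        have := h _ (List.mem_map.2 ⟨r, by simpa using hr, rfl⟩)
        rwa [mk_toWord] at this) (r3 γ hγ)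
    have pa : ∀ m ∈ Submonoid.closure (Set.range s), ∃ γ, ∀ p ∈ M, Path (lift s) M p γ (p * m) := by
      intro m hm
      induction hm using Submonoid.closure_induction with
      | mem _ h =>
        obtain ⟨i, rfl⟩ := h
        refine ⟨mk [(i, true)] * 1, fun p hp => .cons _ hp ?_⟩
        rw [show lift s (mk [(i, true)]) = s i by simp]
        exact .nil (M.mul_mem hp (hs i))
      | one => exact ⟨1, fun p hp => by rw [mul_one]; exact .nil hp⟩
      | mul x y hx _ i1 i2 =>
        obtain ⟨γ, a⟩ := i1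
        obtain ⟨γ', b⟩ := i2
        exact ⟨γ * γ', fun p hp => (a p hp).trans (by
          rw [← mul_assoc]; exact b _ (M.mul_mem hp (hM ▸ hx)))⟩
    choose W hW using fun m : M => pa m (hM ▸ m.2)
    have uq : ∀ (m : M) γ, Path (lift s) M 1 γ m → lift φ (W m) = lift φ γ := fun m γ hγ => by
      have := k _ ((hW m 1 M.one_mem).trans (by rw [one_mul]; exact hγ.symm))
      rwa [map_mul, map_inv, mul_inv_eq_one] at this
    refine ⟨MonoidHom.mk' (fun m => lift φ (W m)) fun x y => ?_, fun i => ⟨hs i, ?_⟩⟩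
    · rw [← map_mul]
      refine uq _ _ ((hW x 1 M.one_mem).trans ?_)
      rw [one_mul]; exact hW y x x.2
    · refine (uq _ (mk [(i, true)] * 1) (.cons _ M.one_mem ?_)).trans (by simp)
      rw [show lift s (mk [(i, true)]) = s i by simp, one_mul]
      exact .nil (hs i)
  · rintro ⟨Φ, hΦ⟩ r hr
    obtain ⟨r, hr, rfl⟩ := List.mem_map.1 hr
    obtain ⟨p, hp⟩ := r2 r (by simpa using hr)
    have : ∀ p γ q, Path (lift s) M p γ q → ∀ h h', Φ ⟨p, h⟩ * lift φ γ = Φ ⟨q, h'⟩ := by
      intro p γ q h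
      induction h with
      | nil => simp
      | @cons p γ q x hp h ih =>
        intro a b
        rw [map_mul, ← mul_assoc, ← ih h.left b]
        congr 1
        obtain ⟨i, _ | _⟩ := x
        · obtain ⟨c, e⟩ := hΦ i
          rw [show lift φ (mk [(i, false)]) = (φ i)⁻¹ by simp, mul_inv_eq_iff_eq_mul, ← e,
            ← map_mul]
          congr 1
          simp
        · obtain ⟨c, e⟩ := hΦ i
          rw [show lift φ (mk [(i, true)]) = φ i by simp, ← e, ← map_mul]
          congr 1
          simp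
    rw [mk_toWord]
    simpa using this _ _ _ hp hp.left hp.left

theorem ex_list {α H : Type} [Monoid H] (f : α → H) (p : α → Prop) {h : H}
    (hh : h ∈ Submonoid.closure {x | ∃ y, p y ∧ f y = x}) :
    ∃ l : List α, (∀ y ∈ l, p y) ∧ (l.map f).prod = h := by
  induction hh using Submonoid.closure_induction with
  | mem _ h => obtain ⟨y, a, rfl⟩ := h; exact ⟨[y], by simpa, by simp⟩
  | one => exact ⟨[], by simp, rfl⟩
  | mul x y _ _ i1 i2 =>
    obtain ⟨l, a, rfl⟩ := i1
    obtain ⟨l', b, rfl⟩ := i2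
    exact ⟨l ++ l', fun y hy => (List.mem_append.1 hy).elim (a y) (b y), by simp⟩

theorem rel_prod {α H G : Type} [Monoid H] [Monoid G] {M : Submonoid H} (Φ : M →* G) (f : α → H)
    (g : α → G) (l : List α) (h : ∀ y ∈ l, ∃ c, Φ ⟨f y, c⟩ = g y) :
    ∃ c, Φ ⟨(l.map f).prod, c⟩ = (l.map g).prod := by
  induction l with
  | nil => exact ⟨M.one_mem, map_one Φ⟩
  | cons y l ih =>
    obtain ⟨c, e⟩ := h y (by simp)
    obtain ⟨c', e'⟩ := ih (fun z hz => h z (by simp [hz]))
    refine ⟨M.mul_mem c c', ?_⟩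
    rw [List.map_cons (f := g), List.prod_cons (a := g y), ← e, ← e', ← map_mul]; rfl

theorem call {α : Type} [Primcodable α] [Inhabited α] {f : α → Bool} (hf : Computable f) :
    Computable fun l : List α => l.all f := by
  refine (Computable.nat_rec (f := fun l : List α => l.length) (g := fun _ => true)
    (h := fun l p => p.2 && f (l.getD p.1 default)) Primrec.list_length.to_comp (.const _)
    (Primrec.and.to_comp.comp (Computable.snd.comp .snd) (hf.comp
      ((Primrec.list_getD default).to_comp.comp .fst (Computable.fst.comp .snd)))).to₂).of_eq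
    fun l => ?_
  have : ∀ n, n ≤ l.length → Nat.rec (motive := fun _ => Bool) true
      (fun y ih => ih && f (l.getD y default)) n = (l.take n).all f := by
    intro n hn
    induction n with
    | zero => simp
    | succ n ih =>
      rw [List.take_add_one, List.all_append, ← ih (by omega)]
      simp [List.getElem?_eq_getElem (show n < l.length by omega)]
  simpa using this _ le_rfl

theorem search {α C : Type} [Primcodable α] [Primcodable C] [Inhabited C] {p : α → C → Prop}
    (hp : PrimrecRel p) {o : α → C → Bool} (ho : Computable₂ o) :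
    ∃ f : α →. Bool, Partrec f ∧ ∀ a, (∃ c, p a c) → ∃ c, p a c ∧ o a c ∈ f a := by
  classical
  have hd : Primrec fun n : ℕ => (Encodable.decode (α := C) n).getD default :=
    Primrec.option_getD.comp Primrec.decode (.const _)
  refine ⟨fun a => (Nat.rfind fun n => (Part.some (decide (p a ((Encodable.decode n).getD
    default))))).map fun n => o a ((Encodable.decode n).getD default), ?_, ?_⟩
  · exact (Partrec.rfind (p := fun a n => Part.some _)
      ((hp.comp .fst (hd.comp .snd)).decide.to_comp.to₂.partrec₂)).map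
      (ho.comp (Computable.fst) (hd.to_comp.comp .snd)).to₂
  · rintro a ⟨c, hc⟩
    have : (Nat.rfind fun n => (Part.some (decide (p a ((Encodable.decode n).getD
      default))))).Dom := Nat.rfind_dom.2 ⟨Encodable.encode c, by simpa using hc, by simp⟩
    exact ⟨_, by simpa using Nat.rfind_spec (Part.get_mem this), Part.mem_map _ (Part.get_mem this)⟩

end Pool.Agent.H.MP_3ff21c_al
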